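import Pool.Agent.H.MP_4dbef5_lc.Def

namespace Pool.Agent.H.MP_4dbef5_lc

open Finset

theorem exact {n d : ℕ} {K : Finset (Finset (Fin n))} (h : NCTD K ≤ d) (hd : d ≤ n) :
    ∃ T, Teacher K T ∧ ∀ C ∈ K, (T C).card = d := by
  have ne : {k | ∃ T, Teacher K T ∧ ∀ C ∈ K, (T C).card ≤ k}.Nonempty := by
    refine ⟨n, fun _ => univ, fun C _ C' _ hne => ?_, fun C _ => by simp⟩
    by_contra g
    push Not at g
    exact hne (Finset.ext fun x => g x (by simp))
  obtain ⟨T, hT, hk⟩ := Nat.sInf_mem ne
  have e : ∀ C, ∃ U, C ∈ K → T C ⊆ U ∧ U.card = d := fun C => by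
    by_cases c : C ∈ K
    · obtain ⟨U, a, -, b⟩ := exists_subsuperset_card_eq (subset_univ (T C))
        ((hk C c).trans h) (by simpa using hd)
      exact ⟨U, fun _ => ⟨a, b⟩⟩
    · exact ⟨∅, fun g => absurd g c⟩
  choose U hU using e
  refine ⟨U, fun C c C' c' hne => ?_, fun C c => (hU C c).2⟩
  obtain ⟨x, hx, g⟩ := hT C c C' c' hne
  exact ⟨x, union_subset_union (hU C c).1 (hU C' c').1 hx, g⟩

/-- Concepts taught inside `U` have distinct traces on `U`. -/
theorem inside {n : ℕ} {K : Finset (Finset (Fin n))} {T} (h : Teacher K T) (U : Finset (Fin n)) :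
    (K.filter fun C => T C ⊆ U).card ≤ 2 ^ U.card := by
  rw [← card_powerset]
  refine card_le_card_of_injOn (fun C => C ∩ U) (fun C _ => by simp) fun C c C' c' e => ?_
  simp only [coe_filter, Set.mem_setOf_eq] at c c'
  by_contra hne
  obtain ⟨x, hx, g⟩ := h C c.1 C' c'.1 hne
  have hU : x ∈ U := union_subset c.2 c'.2 hx
  have := Finset.ext_iff.1 e x
  simp only [mem_inter, hU, and_true] at this
  exact g this

theorem upper {n d s : ℕ} {K : Finset (Finset (Fin n))} (h : NCTD K ≤ d) (hs : d + s ≤ n) :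
    K.card * (d + s).choose d ≤ 2 ^ (d + s) * n.choose d := by
  obtain ⟨T, hT, hk⟩ := exact h (by omega : d ≤ n)
  have key : K.card * (n - d).choose s ≤ (univ.powersetCard (d + s) : Finset (Finset (Fin n))).card * 2 ^ (d + s) := by
    refine card_mul_le_card_mul (fun C U => T C ⊆ U) (fun C c => ?_) fun U u => ?_
    · have := card_filter_powersetCard_subset (T C) univ (d + s) (subset_univ _) (by rw [hk C c]; omega)
      rw [hk C c, card_univ, Fintype.card_fin, Nat.add_sub_cancel_left] at this
      exact this.ge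
    · rw [← (mem_powersetCard.1 u).2]
      exact inside hT U
  rw [card_powersetCard, card_univ, Fintype.card_fin] at key
  have e := Nat.choose_mul (n := n) (show d ≤ d + s by omega)
  rw [Nat.add_sub_cancel_left] at e
  have p : 0 < (n - d).choose s := Nat.choose_pos (by omega)
  refine Nat.le_of_mul_le_mul_right ?_ p
  calc K.card * (d + s).choose d * (n - d).choose s
      = K.card * (n - d).choose s * (d + s).choose d := by ring
    _ ≤ n.choose (d + s) * 2 ^ (d + s) * (d + s).choose d := Nat.mul_le_mul_right _ key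
    _ = 2 ^ (d + s) * (n.choose (d + s) * (d + s).choose d) := by ring
    _ = _ := by rw [e]; ring

end Pool.Agent.H.MP_4dbef5_lc
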