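import Pool.Agent.H.MP_4dbef5_lc.A

namespace Pool.Agent.H.MP_4dbef5_lc

open Finset

def tb : ℕ := 1662175977350588166831206769427843545190363035842030794306272458130718275230333122302704025969761484114993162721095289444170380049683559472585393196869839356780625317677578010265456065897700685277616271682613388635044699598740103153322660905925038376473185095798799096479431566507566609289406430952186368802521248926054695180326554186824626854613782985692816232121662013920807582087782582104501159704416387583868758258907794029959338330342034951747711327821373194384735358384239345802495453149954632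

def cm (a b : ℕ) : ℕ := if a < b then 0 else if a = b then 1 else 2

def W (x y : ℕ) : ℕ := 1 + (if x % 4 = y % 4 then 0 else 1) + (if x % 2 = y % 2 then 0 else 1)

def val (x y s z : ℕ) : Bool :=
  tb.testBit ((((x % 4 * 4 + y % 4) * 3 + s) * 4 + z % 4) * 9 + cm z x * 3 + cm z y)

def ok (x y s x' y' s' : ℕ) : Bool :=
  (x == x' && y == y' && s == s') || (val x y s x != val x' y' s' x) ||
    (val x y s y != val x' y' s' y) || (val x y s x' != val x' y' s' x') ||
    (val x y s y' != val x' y' s' y')

def chk : Bool :=
  (List.range 16).all fun y => (List.range y).all fun x => (List.range (W x y)).all fun s =>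
    (List.range 16).all fun y' => (List.range y').all fun x' => (List.range (W x' y')).all fun s' =>
      ok x y s x' y' s'

theorem chk_true : chk = true := by decide +kernel

theorem ok16 {x y s x' y' s' : ℕ} (h : y < 16) (a : x < y) (b : s < W x y) (h' : y' < 16)
    (a' : x' < y') (b' : s' < W x' y') : ok x y s x' y' s' = true := by
  have := chk_true
  simp only [chk, List.all_eq_true, List.mem_range] at this
  exact this y h x a s b y' h' x' a' s' b'

theorem ok_all {x y s x' y' s' : ℕ} (a : x < y) (b : s < W x y)
    (a' : x' < y') (b' : s' < W x' y') : ok x y s x' y' s' = true := by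
  let r : ℕ → ℕ := fun z => 4 * ((if x < z then 1 else 0) + (if y < z then 1 else 0) +
    (if x' < z then 1 else 0) + (if y' < z then 1 else 0)) + z % 4
  have m : ∀ z, r z % 4 = z % 4 := fun z => by simp only [r]; omega
  have m2 : ∀ z, r z % 2 = z % 2 := fun z => by have := m z; omega
  have lt : ∀ z ∈ [x, y, x', y'], ∀ w, z < w → r z < r w := fun z hz w h => by
    simp only [List.mem_cons, List.not_mem_nil, or_false] at hz
    simp only [r]
    rcases hz with e | e | e | e <;> split_ifs <;> omega
  have c : ∀ z ∈ [x, y, x', y'], ∀ w ∈ [x, y, x', y'], cm (r z) (r w) = cm z w := fun z hz w hw => by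
    rcases lt_trichotomy z w with h | h | h
    · simp [cm, h, lt z hz w h]
    · simp [cm, h]
    · have := lt w hw z h
      simp [cm, h.le.not_gt, h.ne', this.le.not_gt, this.ne']
  have inj : ∀ z ∈ [x, y, x', y'], ∀ w ∈ [x, y, x', y'], (r z == r w) = (z == w) := fun z hz w hw => by
    rcases lt_trichotomy z w with h | h | h
    · simp [h.ne, (lt z hz w h).ne]
    · simp [h]
    · simp [h.ne', (lt w hw z h).ne']
  have bd : ∀ z ∈ [x, y, x', y'], r z < 16 := fun z hz => by
    simp only [List.mem_cons, List.not_mem_nil, or_false] at hz
    simp only [r]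
    rcases hz with e | e | e | e <;> split_ifs <;> omega
  have w : ∀ z w, W (r z) (r w) = W z w := fun z w => by simp only [W, m, m2]
  have v : ∀ p ∈ [x, y, x', y'], ∀ q ∈ [x, y, x', y'], ∀ t, ∀ z ∈ [x, y, x', y'],
      val (r p) (r q) t (r z) = val p q t z := fun p hp q hq t z hz => by
    simp only [val, m, c z hz p hp, c z hz q hq]
  have := ok16 (bd y (by simp)) (lt x (by simp) y a) (by rw [w]; exact b) (bd y' (by simp))
    (lt x' (by simp) y' a') (by rw [w]; exact b')
  unfold ok at this ⊢
  rw [inj x (by simp) x' (by simp), inj y (by simp) y' (by simp)] at this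
  iterate 8 rw [v _ (by simp) _ (by simp) _ _ (by simp)] at this
  exact this

end Pool.Agent.H.MP_4dbef5_lc
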