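import Pool.Agent.H.MP_4dbef5_lc.B

namespace Pool.Agent.H.MP_4dbef5_lc

open Finset

theorem sumW (y k : ℕ) :
    ∑ x ∈ range k, W x y + (k + 3 - y % 4) / 4 + (k + 1 - y % 2) / 2 = 3 * k := by
  induction k with
  | zero => simp; omega
  | succ k ih =>
    rw [sum_range_succ]
    generalize ∑ x ∈ range k, W x y = S at *
    unfold W
    split_ifs <;> omega

theorem step (n : ℕ) : (n + 1) ^ 2 / 4 + 3 * (n + 1) ^ 2 / 8 + n / 4 + n / 2 =
    n ^ 2 / 4 + 3 * n ^ 2 / 8 + 2 * n := by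
  obtain ⟨q, h⟩ : ∃ q, n = 4 * q ∨ n = 4 * q + 1 ∨ n = 4 * q + 2 ∨ n = 4 * q + 3 := ⟨n / 4, by omega⟩
  have e : (n + 1) ^ 2 = n ^ 2 + 2 * n + 1 := by ring
  rw [e]
  rcases h with h | h | h | h
  · have : n ^ 2 = 16 * (q * q) := by rw [h]; ring
    omega
  · have : n ^ 2 = 16 * (q * q) + 8 * q + 1 := by rw [h]; ring
    omega
  · have : n ^ 2 = 16 * (q * q) + 16 * q + 4 := by rw [h]; ring
    omega
  · have : n ^ 2 = 16 * (q * q) + 24 * q + 9 := by rw [h]; ring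
    omega

theorem total (n : ℕ) : ∑ y ∈ range n, ∑ x ∈ range y, W x y =
    n.choose 2 + n ^ 2 / 4 + 3 * n ^ 2 / 8 := by
  induction n with
  | zero => simp
  | succ n ih =>
    rw [sum_range_succ, ih, Nat.choose_succ_succ' n 1, Nat.choose_one_right]
    have := sumW n n
    have := step n
    simp only [Nat.reduceAdd]
    omega

def slots (n : ℕ) : Finset (Σ _ : ℕ, Σ _ : ℕ, ℕ) :=
  (range n).sigma fun y => (range y).sigma fun x => range (W x y)

def con (n : ℕ) (t : Σ _ : ℕ, Σ _ : ℕ, ℕ) : Finset (Fin n) :=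
  univ.filter fun z => val t.2.1 t.1 t.2.2 z = true

def tch (n : ℕ) (t : Σ _ : ℕ, Σ _ : ℕ, ℕ) : Finset (Fin n) :=
  univ.filter fun z => z.val = t.2.1 ∨ z.val = t.1

theorem sep {n : ℕ} {t u} (ht : t ∈ slots n) (hu : u ∈ slots n) (h : t ≠ u) :
    ∃ z ∈ tch n t ∪ tch n u, ¬(z ∈ con n t ↔ z ∈ con n u) := by
  obtain ⟨y, x, s⟩ := t
  obtain ⟨y', x', s'⟩ := u
  simp only [slots, mem_sigma, mem_range] at ht hu
  have := ok_all ht.2.1 ht.2.2 hu.2.1 hu.2.2
  simp only [ok, Bool.or_eq_true, Bool.and_eq_true, beq_iff_eq, bne_iff_ne] at this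
  have g : ∀ z (hz : z < n), val x y s z ≠ val x' y' s' z →
      ¬((⟨z, hz⟩ : Fin n) ∈ con n ⟨y, x, s⟩ ↔ (⟨z, hz⟩ : Fin n) ∈ con n ⟨y', x', s'⟩) := fun z hz e => by
    simp only [con, mem_filter, mem_univ, true_and]
    exact fun g => e (Bool.eq_iff_iff.2 g)
  rcases this with (((⟨⟨rfl, rfl⟩, rfl⟩ | e) | e) | e) | e
  · exact absurd rfl h
  · exact ⟨⟨x, by omega⟩, by simp [tch], g _ _ e⟩
  · exact ⟨⟨y, by omega⟩, by simp [tch], g _ _ e⟩
  · exact ⟨⟨x', by omega⟩, by simp [tch], g _ _ e⟩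
  · exact ⟨⟨y', by omega⟩, by simp [tch], g _ _ e⟩

theorem tch_card (n : ℕ) (t) : (tch n t).card ≤ 2 := by
  refine (card_le_card_of_injOn (t := {t.2.1, t.1}) Fin.val (fun z hz => ?_)
    Fin.val_injective.injOn).trans card_le_two
  simpa [tch] using hz

theorem lower (n : ℕ) (hn : 3 ≤ n) : ∃ K : Finset (Finset (Fin n)), NCTD K = 2 ∧
    K.card = n.choose 2 + n ^ 2 / 4 + 3 * n ^ 2 / 8 := by
  have c : ((slots n).image (con n)).card = n.choose 2 + n ^ 2 / 4 + 3 * n ^ 2 / 8 := by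
    rw [card_image_of_injOn, ← total]
    · simp [slots, card_sigma]
    · intro t ht u hu e
      by_contra h
      obtain ⟨z, -, g⟩ := sep ht hu h
      exact g (by rw [e])
  refine ⟨_, le_antisymm (Nat.sInf_le ?_) ?_, c⟩
  · have e : ∀ C, ∃ t, C ∈ (slots n).image (con n) → t ∈ slots n ∧ con n t = C := fun C => by
      by_cases h : C ∈ (slots n).image (con n)
      · obtain ⟨t, a, b⟩ := mem_image.1 h
        exact ⟨t, fun _ => ⟨a, b⟩⟩
      · exact ⟨⟨0, 0, 0⟩, fun g => absurd g h⟩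
    choose f hf using e
    refine ⟨fun C => tch n (f C), fun C a C' b h => ?_, fun C _ => tch_card _ _⟩
    have := sep (hf C a).1 (hf C' b).1 fun e => h (by rw [← (hf C a).2, e, (hf C' b).2])
    rwa [(hf C a).2, (hf C' b).2] at this
  · by_contra h
    have := upper (K := (slots n).image (con n)) (d := 1) (s := 1) (by omega) (by omega)
    rw [c, Nat.choose_two_right] at this
    simp only [Nat.reduceAdd, Nat.choose_one_right, Nat.reducePow] at this
    obtain ⟨m, rfl⟩ : ∃ m, n = m + 3 := ⟨n - 3, by omega⟩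
    have e1 : (m + 3) * (m + 3 - 1) = m * m + 5 * m + 6 := by
      rw [show m + 3 - 1 = m + 2 by omega]; ring
    have e2 : (m + 3) ^ 2 = m * m + 6 * m + 9 := by ring
    rw [e1, e2] at this
    omega

end Pool.Agent.H.MP_4dbef5_lc
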