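import Mathlib

namespace Pool.Agent.H.MP_4dbef5_lc

open Finset

variable {V : Type} [DecidableEq V] (m : V → V → ℕ)

def D (S : Finset V) : ℕ := ∑ x ∈ S, ∑ y ∈ S, m x y

def g (n : ℕ) : ℕ := n.choose 2 + n ^ 2 / 4 + 3 * n ^ 2 / 8

theorem g_succ (n : ℕ) : g (n + 1) + n / 4 + n / 2 = g n + 3 * n := by
  unfold g
  rw [Nat.choose_succ_succ' n 1, Nat.choose_one_right]
  simp only [Nat.reduceAdd]
  obtain ⟨q, h⟩ : ∃ q, n = 4 * q ∨ n = 4 * q + 1 ∨ n = 4 * q + 2 ∨ n = 4 * q + 3 := ⟨n / 4, by omega⟩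
  have e : (n + 1) ^ 2 = n ^ 2 + 2 * n + 1 := by ring
  rw [e]
  rcases h with h | h | h | h
  · have : n ^ 2 = 16 * (q * q) := by rw [h]; ring
    omega
  · have : n ^ 2 = 16 * (q * q) + 8 * q + 1 := by rw [h]; ring
    omega
  · have : n ^ 2 = 16 * (q * q) + 16 * q + 4 := by rw [h]; ring
    omega
  · have : n ^ 2 = 16 * (q * q) + 24 * q + 9 := by rw [h]; ring
    omega

structure Good : Prop where
  sy : ∀ x y, m x y = m y x
  dg : ∀ x, m x x = 0
  le : ∀ x y, m x y ≤ 4
  tri : ∀ x y z, m x y + m x z + m y z ≤ 8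
  f1 : ∀ a a' b c d, m a a' = 2 → m a b = 3 → m a c = 3 → m a d = 3 → m a' b = 3 → m a' c = 3 →
    m a' d = 3 → m b c = 2 → m b d = 2 → m c d = 2 → False
  f2 : ∀ a b c d e f, m a b = 3 → m a c = 3 → m a d = 3 → m a e = 3 → m a f = 3 → m b c = 2 →
    m b d = 2 → m b e = 2 → m b f = 2 → m c d = 2 → m c e = 2 → m c f = 2 → m d e = 2 →
    m d f = 2 → m e f = 2 → False

variable {m}

theorem D_split (h : Good m) {U S : Finset V} (u : U ⊆ S) :
    D m S = D m (S \ U) + 2 * ∑ z ∈ S \ U, ∑ x ∈ U, m x z + D m U := by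
  have e : ∑ x ∈ U, ∑ z ∈ S \ U, m x z = ∑ z ∈ S \ U, ∑ x ∈ U, m x z := sum_comm
  have e' : ∑ z ∈ S \ U, ∑ x ∈ U, m z x = ∑ z ∈ S \ U, ∑ x ∈ U, m x z := by simp only [h.sy]
  unfold D
  rw [← sum_sdiff u]
  simp only [← sum_sdiff u, sum_add_distrib]
  omega

theorem bnd {U S : Finset V} (u : U ⊆ S) (w : V → ℕ) (c : ℕ) (h : ∀ z ∈ S, z ∉ U → w z ≤ c) :
    ∑ z ∈ S, w z ≤ ∑ z ∈ U, w z + c * (S.card - U.card) := by
  rw [← sum_sdiff u, ← card_sdiff_of_subset u, add_comm, mul_comm]
  exact Nat.add_le_add_left (sum_le_card_nsmul _ _ _ fun z hz =>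
    h z (mem_sdiff.1 hz).1 (mem_sdiff.1 hz).2) _

theorem Good.ne (h : Good m) {x y : V} {k : ℕ} (e : m x y = k + 1) : x ≠ y := fun q => by
  rw [q, h.dg] at e; omega

def NoC (m : V → V → ℕ) (S : Finset V) : Prop :=
  ∀ a ∈ S, ∀ a' ∈ S, ∀ b ∈ S, ∀ c ∈ S, m a a' = 2 → m a b = 3 → m a c = 3 → m b a' = 3 →
    m c a' = 3 → m b c = 2 → False

theorem ar4 {p q r t x b c d e : ℕ} (_ : p + x + b ≤ 8) (_ : q + x + c ≤ 8) (_ : r + x + d ≤ 8)
    (_ : t + x + e ≤ 8) (_ : p = 3) (_ : q = 3) (_ : r = 3) (_ : t = 3) (_ : x ≤ 3) (_ : b ≤ 3)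
    (_ : c ≤ 3) (_ : d ≤ 3) (_ : e ≤ 3) (t0 : x = 3 → b = 2 → c = 2 → d = 2 → e = 2 → False)
    (t1 : x = 2 → b = 3 → c = 3 → False) (t2 : x = 2 → b = 3 → d = 3 → False)
    (t3 : x = 2 → b = 3 → e = 3 → False) (t4 : x = 2 → c = 3 → d = 3 → False)
    (t5 : x = 2 → c = 3 → e = 3 → False) (t6 : x = 2 → d = 3 → e = 3 → False) :
    5 * x + 2 * b + 2 * c + 2 * d + 2 * e ≤ 29 := by
  by_contra n
  by_cases x3 : x = 3
  · exact t0 x3 (by omega) (by omega) (by omega) (by omega)
  by_cases x2 : x = 2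
  · by_cases b3 : b = 3
    · have : c ≠ 3 := t1 x2 b3
      have : d ≠ 3 := t2 x2 b3
      have : e ≠ 3 := t3 x2 b3
      clear t0 t1 t2 t3 t4 t5 t6
      omega
    by_cases c3 : c = 3
    · have : d ≠ 3 := t4 x2 c3
      have : e ≠ 3 := t5 x2 c3
      clear t0 t1 t2 t3 t4 t5 t6
      omega
    · exact t6 x2 (by omega) (by omega)
  · clear t0 t1 t2 t3 t4 t5 t6
    omega

theorem mindeg (h : Good m) {S : Finset V} (ne : S.Nonempty) (l : ∀ x ∈ S, ∀ y ∈ S, m x y ≤ 3)
    (nc : NoC m S) : ∃ v ∈ S, 4 * ∑ z ∈ S, m v z + 5 ≤ 9 * S.card := by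
  by_contra q
  push Not at q
  have sy := h.sy
  by_cases p4 : ∃ a ∈ S, ∃ b ∈ S, ∃ c ∈ S, ∃ d ∈ S, ∃ e ∈ S, m a b = 3 ∧ m a c = 3 ∧ m a d = 3 ∧
      m a e = 3 ∧ m b c = 2 ∧ m b d = 2 ∧ m b e = 2 ∧ m c d = 2 ∧ m c e = 2 ∧ m d e = 2
  · obtain ⟨a, ha, b, hb, c, hc, d, hd, e, he, ab, ac, ad, ae, bc, bd, be, cd, ce, de⟩ := p4
    have u : ({a, b, c, d, e} : Finset V) ⊆ S := by simp [insert_subset_iff, ha, hb, hc, hd, he]
    have := bnd u (fun z => 5 * m a z + 2 * m b z + 2 * m c z + 2 * m d z + 2 * m e z) 29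
      fun z hz _ => by
        exact ar4 (h.tri a b z) (h.tri a c z) (h.tri a d z) (h.tri a e z) ab ac ad ae (l a ha z hz)
          (l b hb z hz) (l c hc z hz) (l d hd z hz) (l e he z hz)
          (fun x y w v t => h.f2 a b c d e z ab ac ad ae x bc bd be y cd ce w de v t)
          (fun x y w => nc a ha z hz b hb c hc x ab ac y w bc)
          (fun x y w => nc a ha z hz b hb d hd x ab ad y w bd)
          (fun x y w => nc a ha z hz b hb e he x ab ae y w be)
          (fun x y w => nc a ha z hz c hc d hd x ac ad y w cd)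
          (fun x y w => nc a ha z hz c hc e he x ac ae y w ce)
          (fun x y w => nc a ha z hz d hd e he x ad ae y w de)
    have k := card_le_card u
    simp [h.ne ab, h.ne ac, h.ne ad, h.ne ae, h.ne bc, h.ne bd, h.ne be, h.ne cd, h.ne ce, h.ne de,
      h.dg, sy b a, sy c a, sy d a, sy e a, sy c b, sy d b, sy e b, sy d c, sy e c, sy e d,
      ab, ac, ad, ae, bc, bd, be, cd, ce, de, sum_add_distrib, ← mul_sum] at this k
    have := q a ha; have := q b hb; have := q c hc; have := q d hd; have := q e he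
    omega
  by_cases p3 : ∃ a ∈ S, ∃ b ∈ S, ∃ c ∈ S, ∃ d ∈ S, m a b = 3 ∧ m a c = 3 ∧ m a d = 3 ∧
      m b c = 2 ∧ m b d = 2 ∧ m c d = 2
  · obtain ⟨a, ha, b, hb, c, hc, d, hd, ab, ac, ad, bc, bd, cd⟩ := p3
    have u : ({a, b, c, d} : Finset V) ⊆ S := by simp [insert_subset_iff, ha, hb, hc, hd]
    have := bnd u (fun z => 2 * m a z + m b z + m c z + m d z) 11
      fun z hz _ => by
        have := h.tri a b z; have := h.tri a c z; have := h.tri a d z
        have := l b hb z hz; have := l c hc z hz; have := l d hd z hz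
        have := l a ha z hz
        have t8 := fun x y w v => p4 ⟨a, ha, b, hb, c, hc, d, hd, z, hz, ab, ac, ad, x, bc, bd, y, cd, w, v⟩
        have t9 := fun x y w => nc a ha z hz b hb c hc x ab ac y w bc
        have t10 := fun x y w => nc a ha z hz b hb d hd x ab ad y w bd
        have t11 := fun x y w => nc a ha z hz c hc d hd x ac ad y w cd
        simp only [imp_false, imp_iff_not_or] at t8 t9 t10 t11
        omega
    have k := card_le_card u
    simp [h.ne ab, h.ne ac, h.ne ad, h.ne bc, h.ne bd, h.ne cd,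
      h.dg, sy b a, sy c a, sy d a, sy c b, sy d b, sy d c,
      ab, ac, ad, bc, bd, cd, sum_add_distrib, ← mul_sum] at this k
    have := q a ha; have := q b hb; have := q c hc; have := q d hd
    omega
  by_cases p2 : ∃ a ∈ S, ∃ b ∈ S, ∃ c ∈ S, m a b = 3 ∧ m a c = 3 ∧ m b c = 2
  · obtain ⟨a, ha, b, hb, c, hc, ab, ac, bc⟩ := p2
    have u : ({a, b, c} : Finset V) ⊆ S := by simp [insert_subset_iff, ha, hb, hc]
    have := bnd u (fun z => 2 * m a z + m b z + m c z) 9
      fun z hz _ => by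
        have := h.tri a b z; have := h.tri a c z
        have := l b hb z hz; have := l c hc z hz
        have := l a ha z hz
        have t12 := fun x y w => p3 ⟨a, ha, b, hb, c, hc, z, hz, ab, ac, x, bc, y, w⟩
        have t13 := fun x y w => nc a ha z hz b hb c hc x ab ac y w bc
        simp only [imp_false, imp_iff_not_or] at t12 t13
        omega
    have k := card_le_card u
    simp [h.ne ab, h.ne ac, h.ne bc, h.dg, sy b a, sy c a, sy c b,
      ab, ac, bc, sum_add_distrib, ← mul_sum] at this k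
    have := q a ha; have := q b hb; have := q c hc
    omega
  by_cases p1 : ∃ a ∈ S, ∃ b ∈ S, m a b = 3
  · obtain ⟨a, ha, b, hb, ab⟩ := p1
    have u : ({a, b} : Finset V) ⊆ S := by simp [insert_subset_iff, ha, hb]
    have := bnd u (fun z => m a z + m b z) 4
      fun z hz _ => by
        have := h.tri a b z
        have := l b hb z hz
        have := l a ha z hz
        have t14 := fun x y => p2 ⟨a, ha, b, hb, z, hz, ab, x, y⟩
        have t15 := fun x y => p2 ⟨b, hb, a, ha, z, hz, sy a b ▸ ab, x, y⟩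
        simp only [imp_false, imp_iff_not_or] at t14 t15
        omega
    have k := card_le_card u
    simp [h.ne ab, h.dg, sy b a, ab, sum_add_distrib] at this k
    have := q a ha; have := q b hb
    omega
  · obtain ⟨a, ha⟩ := ne
    have u : ({a} : Finset V) ⊆ S := by simp [ha]
    have := bnd u (fun z => m a z) 2 fun z hz _ => by
      have := l a ha z hz
      have : m a z ≠ 3 := fun x => p1 ⟨a, ha, z, hz, x⟩
      omega
    have k := card_le_card u
    simp only [sum_singleton, card_singleton, h.dg] at this k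
    have := q a ha
    omega

theorem layerA (h : Good m) (n : ℕ) : ∀ S : Finset V, S.card = n + 1 →
    (∀ x ∈ S, ∀ y ∈ S, m x y ≤ 3) → NoC m S →
      D m S + (if n % 4 = 3 then 2 else 0) ≤ 2 * g (n + 1) := by
  induction n with
  | zero =>
    intro S c _ _
    obtain ⟨a, rfl⟩ := card_eq_one.1 c
    simp [D, h.dg]
  | succ n ih =>
    intro S c l nc
    obtain ⟨v, hv, e⟩ := mindeg h (card_pos.1 (by omega)) l nc
    have u : ({v} : Finset V) ⊆ S := by simp [hv]
    have s := D_split h u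
    have i := ih (S \ {v}) (by rw [card_sdiff_of_subset u]; simp [c])
      (fun x hx y hy => l x (mem_sdiff.1 hx).1 y (mem_sdiff.1 hy).1)
      fun a ha b hb c hc d hd => nc a (mem_sdiff.1 ha).1 b (mem_sdiff.1 hb).1 c (mem_sdiff.1 hc).1
        d (mem_sdiff.1 hd).1
    rw [← sum_sdiff u] at e
    simp only [sum_singleton, h.dg, D] at e s i ⊢
    have := g_succ (n + 1)
    split_ifs at i ⊢ <;> omega

theorem layerB (h : Good m) (n : ℕ) : ∀ S : Finset V, S.card = n →
    (∀ x ∈ S, ∀ y ∈ S, m x y ≤ 3) → D m S ≤ 2 * g n := by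
  induction n using Nat.strong_induction_on with
  | _ n ih =>
    intro S c l
    by_cases nc : NoC m S
    · rcases n with _ | n
      · simp [D, card_eq_zero.1 c]
      · exact le_of_add_le_left (layerA h n S c l nc)
    unfold NoC at nc
    push Not at nc
    obtain ⟨a, ha, d, hd, b, hb, e, he, ad, ab, ae, bd, ed, be, -⟩ := nc
    have sy := h.sy
    have u : ({a, d, b, e} : Finset V) ⊆ S := by simp [insert_subset_iff, ha, hb, hd, he]
    have s := D_split h u
    have db := sy b d ▸ bd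
    have de := sy e d ▸ ed
    have k : ({a, d, b, e} : Finset V).card = 4 := by
      simp [h.ne ad, h.ne ab, h.ne ae, h.ne db, h.ne de, h.ne be]
    have k' := card_le_card u
    have c' := card_sdiff_of_subset u
    have i := ih (n - 4) (by omega) _ (by rw [c', k, c])
      (fun x hx y hy => l x (mem_sdiff.1 hx).1 y (mem_sdiff.1 hy).1)
    have t : ∑ z ∈ S \ {a, d, b, e}, ∑ x ∈ {a, d, b, e}, m x z ≤ _ :=
      sum_le_card_nsmul _ _ 9 fun z hz => by
        have hz := (mem_sdiff.1 hz).1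
        have := h.tri a b z; have := h.tri a e z; have := h.tri d b z; have := h.tri d e z
        have := l a ha z hz; have := l b hb z hz; have := l d hd z hz; have := l e he z hz
        simp [h.ne ad, h.ne ab, h.ne ae, h.ne db, h.ne de, h.ne be]
        by_contra n
        by_cases x : m a z = 3
        · exact h.f1 a d b e z ad ab ae x db de (by omega) be (by omega) (by omega)
        · exact h.f1 b e a d z be (sy a b ▸ ab) bd (by omega) (sy a e ▸ ae) ed (by omega) ad
            (by omega) (by omega)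
    have w : D m {a, d, b, e} = 32 := by
      simp [D, h.ne ad, h.ne ab, h.ne ae, h.ne db, h.ne de, h.ne be, h.dg, ad, ab, ae, db, de, be,
        sy d a, sy b a, sy e a, bd, ed, sy e b]
    rw [c', k, c, smul_eq_mul] at t
    obtain ⟨r, rfl⟩ : ∃ r, n = r + 4 := ⟨n - 4, by omega⟩
    simp only [Nat.add_sub_cancel] at i t
    have := g_succ r; have := g_succ (r + 1); have := g_succ (r + 2); have := g_succ (r + 3)
    simp only [add_assoc, Nat.reduceAdd] at *
    omega

theorem layerC (h : Good m) (n : ℕ) : ∀ S : Finset V, S.card = n →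
    D m S ≤ 2 * g n + (if n = 2 then 2 else 0) := by
  induction n using Nat.strong_induction_on with
  | _ n ih =>
    intro S c
    by_cases l : ∀ x ∈ S, ∀ y ∈ S, m x y ≤ 3
    · exact le_add_right (layerB h n S c l)
    push Not at l
    obtain ⟨a, ha, b, hb, ab⟩ := l
    have ab : m a b = 4 := le_antisymm (h.le _ _) ab
    have u : ({a, b} : Finset V) ⊆ S := by simp [insert_subset_iff, ha, hb]
    have s := D_split h u
    have k : ({a, b} : Finset V).card = 2 := by simp [h.ne ab]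
    have k' := card_le_card u
    have c' := card_sdiff_of_subset u
    have i := ih (n - 2) (by omega) _ (by rw [c', k, c])
    have t : ∑ z ∈ S \ {a, b}, ∑ x ∈ {a, b}, m x z ≤ _ :=
      sum_le_card_nsmul _ _ 4 fun z _ => by
        have := h.tri a b z
        simp [h.ne ab]
        omega
    have w : D m {a, b} = 8 := by simp [D, h.ne ab, h.dg, ab, h.sy b a]
    rw [c', k, c, smul_eq_mul] at t
    obtain ⟨r, rfl⟩ : ∃ r, n = r + 2 := ⟨n - 2, by omega⟩
    simp only [Nat.add_sub_cancel] at i t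
    have := g_succ r; have := g_succ (r + 1)
    simp only [add_assoc, Nat.reduceAdd] at *
    split_ifs at i ⊢ <;> omega

end Pool.Agent.H.MP_4dbef5_lc
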