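import Mathlib

/-! No-clash teaching. -/

namespace Pool.Agent.H.MP_4dbef5_lc

/-- `T` is an NC-teacher for the concept class `K` over `Fin n`. -/
def Teacher {n : ℕ} (K : Finset (Finset (Fin n))) (T : Finset (Fin n) → Finset (Fin n)) : Prop :=
  ∀ C ∈ K, ∀ C' ∈ K, C ≠ C' → ∃ x ∈ T C ∪ T C', ¬(x ∈ C ↔ x ∈ C')

/-- The NC-teaching dimension. -/
noncomputable def NCTD {n : ℕ} (K : Finset (Finset (Fin n))) : ℕ :=
  sInf {k | ∃ T, Teacher K T ∧ ∀ C ∈ K, (T C).card ≤ k}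

end Pool.Agent.H.MP_4dbef5_lc
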