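import Pool.Agent.H.MP_4dbef5_lc.C
import Pool.Agent.H.MP_4dbef5_lc.D

namespace Pool.Agent.H.MP_4dbef5_lc

open Finset

variable {n : ℕ} (T : Finset (Fin n) → Finset (Fin n))

def mm (K : Finset (Finset (Fin n))) (x y : Fin n) : ℕ := (K.filter fun C => T C = {x, y}).card

variable {T} {K : Finset (Finset (Fin n))}

theorem D_mm (h : ∀ C ∈ K, (T C).card = 2) (U : Finset (Fin n)) :
    D (mm T K) U = 2 * (K.filter fun C => T C ⊆ U).card := by
  rw [D, ← sum_product']
  simp only [mm, card_filter, mul_sum]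
  rw [sum_comm]
  refine sum_congr rfl fun C c => ?_
  obtain ⟨p, q, ne, e⟩ := card_eq_two.1 (h C c)
  have k : ∀ x y : Fin n, ({p, q} : Finset (Fin n)) = {x, y} ↔ (x, y) = (p, q) ∨ (x, y) = (q, p) := by
    intro x y
    rw [← coe_inj, coe_pair, coe_pair, Set.pair_eq_pair_iff]
    simp only [Prod.mk.injEq, @eq_comm _ x, @eq_comm _ y]
    tauto
  rw [← card_filter, e]
  split_ifs with u
  · refine card_eq_two.2 ⟨(p, q), (q, p), by simp [ne], ?_⟩
    ext ⟨x, y⟩
    simp only [insert_subset_iff, singleton_subset_iff] at u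
    simp only [mem_filter, mem_product, k, mem_insert, mem_singleton, and_iff_right_iff_imp]
    rintro (g | g) <;> simp only [Prod.mk.injEq] at g <;> simp [g.1, g.2, u]
  · refine card_eq_zero.2 (filter_eq_empty_iff.2 fun z hz g => u ?_)
    rw [g]
    simpa [insert_subset_iff] using hz

theorem mm_sy (x y : Fin n) : mm T K x y = mm T K y x := by simp only [mm, pair_comm]

theorem mm_dg (h : ∀ C ∈ K, (T C).card = 2) (x : Fin n) : mm T K x x = 0 :=
  card_eq_zero.2 (filter_eq_empty_iff.2 fun C c g => by simpa [g] using h C c)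

theorem half (h : Teacher K T) (a : Fin n) (b : Prop) [Decidable b] (U : Finset (Fin n)) :
    ((K.filter fun C => a ∈ C ↔ b).filter fun C => T C ⊆ insert a U).card ≤ 2 ^ U.card := by
  rw [← card_powerset]
  refine card_le_card_of_injOn (fun C => C ∩ U) (fun C _ => by simp) fun C c C' c' e => ?_
  simp only [coe_filter, Set.mem_setOf_eq, mem_filter] at c c'
  by_contra hne
  obtain ⟨x, hx, g⟩ := h C c.1.1 C' c'.1.1 hne
  rcases mem_insert.1 (union_subset c.2 c'.2 hx) with rfl | hU
  · exact g (c.1.2.trans c'.1.2.symm)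
  · have := Finset.ext_iff.1 e x
    simp only [mem_inter, hU, and_true] at this
    exact g this

/-- Marginal counts at the point `a`. -/
structure Mar (p : Fin n → Fin n → ℕ) (a : Fin n) : Prop where
  two : ∀ x, a ≠ x → p a x ≤ 2
  three : ∀ x y, a ≠ x → a ≠ y → x ≠ y → p a x + p a y + p x y ≤ 4
  four : ∀ x y z, a ≠ x → a ≠ y → a ≠ z → x ≠ y → x ≠ z → y ≠ z →
    p a x + p a y + p a z + p x y + p x z + p y z ≤ 8

theorem mar (h : Teacher K T) (k : ∀ C ∈ K, (T C).card = 2) (a : Fin n) (b : Prop) [Decidable b] :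
    Mar (mm T (K.filter fun C => a ∈ C ↔ b)) a := by
  have k' : ∀ C ∈ K.filter fun C => a ∈ C ↔ b, (T C).card = 2 := fun C c => k C (mem_filter.1 c).1
  have e := fun U => (D_mm k' (insert a U)).le.trans (Nat.mul_le_mul_left 2 (half h a b U))
  generalize (K.filter fun C => a ∈ C ↔ b) = L at *
  have sy : ∀ x y, mm T L x y = mm T L y x := mm_sy
  refine ⟨fun x ax => ?_, fun x y ax ay xy => ?_, fun x y z ax ay az xy xz yz => ?_⟩
  · have := e {x}
    simp [D, ax, mm_dg k', sy x a] at this
    omega
  · have := e {x, y}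
    simp [D, ax, ay, xy, mm_dg k', sy x a, sy y a, sy y x] at this
    omega
  · have := e {x, y, z}
    simp [D, ax, ay, az, xy, xz, yz, mm_dg k', sy x a, sy y a, sy z a, sy y x, sy z x, sy z y] at this
    omega

theorem pig {b c d e f : ℕ} (hb : b = 1 ∨ b = 2) (hc : c = 1 ∨ c = 2) (hd : d = 1 ∨ d = 2)
    (he : e = 1 ∨ e = 2) (hf : f = 1 ∨ f = 2) (_ : ¬(b = c ∧ c = d)) (_ : ¬(d = e ∧ e = f))
    (_ : ¬(b = c ∧ c = e)) (_ : ¬(b = c ∧ c = f)) (_ : ¬(b = d ∧ d = e)) (_ : ¬(b = d ∧ d = f))
    (_ : ¬(b = e ∧ e = f)) (_ : ¬(c = d ∧ d = e)) (_ : ¬(c = d ∧ d = f)) (_ : ¬(c = e ∧ e = f)) :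
    False := by
  rcases hb with rfl | rfl <;> rcases hc with rfl | rfl <;> rcases hd with rfl | rfl <;>
    rcases he with rfl | rfl <;> rcases hf with rfl | rfl <;> simp_all

theorem good (h : Teacher K T) (k : ∀ C ∈ K, (T C).card = 2) : Good (mm T K) := by
  have sp : ∀ a x y, mm T K x y = mm T (K.filter fun C => a ∈ C ↔ True) x y +
      mm T (K.filter fun C => a ∈ C ↔ False) x y := fun a x y => by
    simp only [mm, iff_true, iff_false]
    rw [filter_comm _ _ K, filter_comm (fun C => a ∉ C) _ K, card_filter_add_card_filter_not]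
  have dg := mm_dg k
  have ne : ∀ {x y j}, mm T K x y = j + 1 → x ≠ y := fun e q => by rw [q, dg] at e; omega
  have le : ∀ x y, mm T K x y ≤ 4 := fun x y => by
    by_cases e : x = y
    · rw [e, dg]; omega
    · have := (mar h k x True).two y e; have := (mar h k x False).two y e
      have := sp x x y
      omega
  have star : ∀ a b c d, mm T K a b = 3 → mm T K a c = 3 → mm T K a d = 3 → mm T K b c = 2 →
      mm T K b d = 2 → mm T K c d = 2 → ∀ p q r, p = mm T (K.filter fun C => a ∈ C ↔ True) a b →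
      q = mm T (K.filter fun C => a ∈ C ↔ True) a c → r = mm T (K.filter fun C => a ∈ C ↔ True) a d →
      (p = 1 ∨ p = 2) ∧ (q = 1 ∨ q = 2) ∧ (r = 1 ∨ r = 2) ∧ ¬(p = q ∧ q = r) := by
    intro a b c d ab ac ad bc bd cd p q r _ _ _
    have A := mar h k a True
    have B := mar h k a False
    have := sp a a b; have := sp a a c; have := sp a a d; have := sp a b c; have := sp a b d
    have := sp a c d
    have := A.two b (ne ab); have := A.two c (ne ac); have := A.two d (ne ad)
    have := B.two b (ne ab); have := B.two c (ne ac); have := B.two d (ne ad)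
    have := A.three b c (ne ab) (ne ac) (ne bc); have := B.three b c (ne ab) (ne ac) (ne bc)
    have := A.three b d (ne ab) (ne ad) (ne bd); have := B.three b d (ne ab) (ne ad) (ne bd)
    have := A.three c d (ne ac) (ne ad) (ne cd); have := B.three c d (ne ac) (ne ad) (ne cd)
    have := A.four b c d (ne ab) (ne ac) (ne ad) (ne bc) (ne bd) (ne cd)
    have := B.four b c d (ne ab) (ne ac) (ne ad) (ne bc) (ne bd) (ne cd)
    omega
  have sq : ∀ a e b c, mm T K a e = 2 → mm T K a b = 3 → mm T K a c = 3 → mm T K e b = 3 →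
      mm T K e c = 3 → mm T K b c = 2 → mm T (K.filter fun C => a ∈ C ↔ True) a e +
      mm T (K.filter fun C => a ∈ C ↔ True) a b + mm T (K.filter fun C => a ∈ C ↔ True) a c = 4 := by
    intro a e b c ae ab ac eb ec bc
    have A := mar h k a True
    have B := mar h k a False
    have := sp a a e; have := sp a a b; have := sp a a c; have := sp a e b; have := sp a e c
    have := sp a b c
    have := A.three b c (ne ab) (ne ac) (ne bc); have := B.three b c (ne ab) (ne ac) (ne bc)
    have := A.three e b (ne ae) (ne ab) (ne eb); have := B.three e b (ne ae) (ne ab) (ne eb)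
    have := A.three e c (ne ae) (ne ac) (ne ec); have := B.three e c (ne ae) (ne ac) (ne ec)
    have := A.four e b c (ne ae) (ne ab) (ne ac) (ne eb) (ne ec) (ne bc)
    have := B.four e b c (ne ae) (ne ab) (ne ac) (ne eb) (ne ec) (ne bc)
    omega
  refine ⟨mm_sy, dg, le, fun x y z => ?_, fun a e b c d ae ab ac ad eb ec ed bc bd cd => ?_,
    fun a b c d e f ab ac ad ae af bc bd be bf cd ce cf de df ef => ?_⟩
  · by_cases xy : x = y
    · have := le y z; rw [xy, dg]; omega
    by_cases xz : x = z
    · have := le z y; rw [xz, dg, mm_sy y z]; omega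
    by_cases yz : y = z
    · have := le x z; rw [yz, dg]; omega
    have := (mar h k x True).three y z xy xz yz; have := (mar h k x False).three y z xy xz yz
    have := sp x x y; have := sp x x z; have := sp x y z
    omega
  · have := star a b c d ab ac ad bc bd cd _ _ _ rfl rfl rfl
    have := sq a e b c ae ab ac eb ec bc
    have := sq a e b d ae ab ad eb ed bd
    have := sq a e c d ae ac ad ec ed cd
    omega
  · have s1 := star a b c d ab ac ad bc bd cd _ _ _ rfl rfl rfl
    have s2 := star a d e f ad ae af de df ef _ _ _ rfl rfl rfl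
    exact pig s1.1 s1.2.1 s1.2.2.1 s2.2.1 s2.2.2.1 s1.2.2.2 s2.2.2.2
      (star a b c e ab ac ae bc be ce _ _ _ rfl rfl rfl).2.2.2
      (star a b c f ab ac af bc bf cf _ _ _ rfl rfl rfl).2.2.2
      (star a b d e ab ad ae bd be de _ _ _ rfl rfl rfl).2.2.2
      (star a b d f ab ad af bd bf df _ _ _ rfl rfl rfl).2.2.2
      (star a b e f ab ae af be bf ef _ _ _ rfl rfl rfl).2.2.2
      (star a c d e ac ad ae cd ce de _ _ _ rfl rfl rfl).2.2.2
      (star a c d f ac ad af cd cf df _ _ _ rfl rfl rfl).2.2.2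
      (star a c e f ac ae af ce cf ef _ _ _ rfl rfl rfl).2.2.2

theorem upper2 (hn : 3 ≤ n) (h : NCTD K ≤ 2) : K.card ≤ g n := by
  obtain ⟨T, hT, k⟩ := exact h (by omega)
  have := layerC (good hT k) n univ (by simp)
  rw [D_mm k, if_neg (by omega)] at this
  simp only [subset_univ, filter_true] at this
  omega

end Pool.Agent.H.MP_4dbef5_lc
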